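import Mathlib

/-! Bibasic systems whose functionals are equivalent to the coefficient functionals: the operators
`z ↦ ∑_{n<N} f_n(z) x_n` are uniformly bounded. -/

set_option autoImplicit false

namespace Pool.Agent.H270.Bibasic

open Finset Filter Topology

noncomputable section

/-- The sequence `x` is basic: it is a Schauder basis of its closed linear span, that is, every `y` in the
closed linear span of `x` is the sum `∑ a n • x n` of a series for exactly one scalar sequence `a`. -/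
def IsBasicSeq (𝕜 : Type*) {X : Type*} [NormedField 𝕜] [NormedAddCommGroup X] [NormedSpace 𝕜 X]
    (x : ℕ → X) : Prop :=
  ∀ y ∈ (Submodule.span 𝕜 (Set.range x)).topologicalClosure,
    ∃! a : ℕ → 𝕜, Tendsto (fun N => ∑ n ∈ range N, a n • x n) atTop (𝓝 y)

/-- The sequences `u` in `X` and `v` in `Y` are equivalent: for every scalar sequence `a`, the series
`∑ a n • u n` converges in `X` exactly when `∑ a n • v n` converges in `Y`. -/
def SeqEquiv (𝕜 : Type*) {X Y : Type*} [NormedField 𝕜] [NormedAddCommGroup X] [NormedSpace 𝕜 X]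
    [NormedAddCommGroup Y] [NormedSpace 𝕜 Y] (u : ℕ → X) (v : ℕ → Y) : Prop :=
  ∀ a : ℕ → 𝕜, (∃ s : X, Tendsto (fun N => ∑ n ∈ range N, a n • u n) atTop (𝓝 s)) ↔
    ∃ t : Y, Tendsto (fun N => ∑ n ∈ range N, a n • v n) atTop (𝓝 t)

variable {𝕜 : Type*} [RCLike 𝕜]

section ell1

variable {F : Type*} [NormedAddCommGroup F] [NormedSpace 𝕜 F] [CompleteSpace F]

/-- the space `ℓ₁` -/
abbrev L1 (𝕜 : Type*) [RCLike 𝕜] : Type _ := lp (fun _ : ℕ => 𝕜) 1

theorem hasSum_norm_L1 (d : L1 𝕜) : HasSum (fun k => ‖d k‖) ‖d‖ := by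
  have h := lp.hasSum_norm (p := 1) (by norm_num) d
  simpa using h

theorem summable_smul (d : L1 𝕜) {v : ℕ → F} {M : ℝ} (hv : ∀ k, ‖v k‖ ≤ M) :
    Summable fun k => d k • v k := by
  refine Summable.of_norm_bounded (g := fun k => ‖d k‖ * M) ((hasSum_norm_L1 d).summable.mul_right M) fun k => ?_
  rw [norm_smul]
  exact mul_le_mul_of_nonneg_left (hv k) (norm_nonneg _)

/-- the operator `d ↦ ∑ d k • v k` for a bounded sequence `v` -/
def opV (v : ℕ → F) (M : ℝ) (hv : ∀ k, ‖v k‖ ≤ M) : L1 𝕜 →L[𝕜] F :=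
  LinearMap.mkContinuous
    { toFun := fun d => ∑' k, d k • v k
      map_add' := fun d e => by
        rw [← (summable_smul d hv).tsum_add (summable_smul e hv)]
        refine tsum_congr fun k => ?_
        rw [lp.coeFn_add, Pi.add_apply, add_smul]
      map_smul' := fun c d => by
        rw [RingHom.id_apply, ← (summable_smul d hv).tsum_const_smul c]
        refine tsum_congr fun k => ?_
        rw [lp.coeFn_smul, Pi.smul_apply, smul_assoc] } M (fun d => by
      show ‖∑' k, d k • v k‖ ≤ M * ‖d‖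
      refine tsum_of_norm_bounded (g := fun k => M * ‖d k‖) ((hasSum_norm_L1 d).mul_left M) fun k => ?_
      rw [norm_smul, mul_comm]
      exact mul_le_mul_of_nonneg_right (hv k) (norm_nonneg _))

theorem opV_apply (v : ℕ → F) (M : ℝ) (hv : ∀ k, ‖v k‖ ≤ M) (d : L1 𝕜) :
    opV v M hv d = ∑' k, d k • v k := rfl

/-- the tails of a summable sequence -/
def tl (d : L1 𝕜) (n : ℕ) : 𝕜 := ∑' k, if n ≤ k then d k else 0

theorem partial_tail (d : L1 𝕜) (w : ℕ → F) (N : ℕ) :
    ∑ n ∈ range N, tl d n • w n = ∑' k, d k • ∑ n ∈ range (min (k + 1) N), w n := by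
  have hs : ∀ n, Summable fun k => if n ≤ k then d k else 0 := fun n => by
    refine Summable.of_norm_bounded (g := fun k => ‖d k‖) (hasSum_norm_L1 d).summable fun k => ?_
    split_ifs
    · exact le_rfl
    · rw [norm_zero]; exact norm_nonneg _
  have h1 : ∀ n ∈ range N, tl d n • w n = ∑' k, (if n ≤ k then d k else 0) • w n := fun n _ => by
    unfold tl
    rw [(hs n).tsum_smul_const]
  rw [sum_congr rfl h1, ← Summable.tsum_finsetSum fun n _ => (hs n).smul_const (w n)]
  refine tsum_congr fun k => ?_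
  rw [smul_sum]
  have h2 : range (min (k + 1) N) = (range N).filter fun n => n ≤ k := by
    ext n
    simp only [mem_range, mem_filter, lt_min_iff, Nat.lt_succ_iff]
    tauto
  rw [h2, sum_filter]
  refine sum_congr rfl fun n _ => ?_
  split_ifs
  · rfl
  · rw [zero_smul]

/-- if the series `∑ a n • v n` has bounded partial sums, then so has `∑ a n • u n`, for equivalent sequences -/
theorem bounded_of_equiv {G : Type*} [NormedAddCommGroup G] [NormedSpace 𝕜 G] [CompleteSpace G]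
    {u : ℕ → F} {v : ℕ → G} (h : SeqEquiv 𝕜 u v) (a : ℕ → 𝕜) {M : ℝ}
    (hM : ∀ N, ‖∑ n ∈ range N, a n • v n‖ ≤ M) : ∃ C, ∀ N, ‖∑ n ∈ range N, a n • u n‖ ≤ C := by
  -- the partial sums as operators on `ℓ₁`
  have hbd : ∀ N, ∃ B : ℝ, ∀ k, ‖∑ n ∈ range (min (k + 1) N), a n • u n‖ ≤ B := fun N => by
    refine ⟨∑ n ∈ range N, ‖a n • u n‖, fun k => (norm_sum_le _ _).trans ?_⟩
    refine sum_le_sum_of_subset_of_nonneg ?_ fun _ _ _ => norm_nonneg _
    exact range_subset_range.2 (min_le_right _ _)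
  choose B hB using hbd
  let L : ℕ → L1 𝕜 →L[𝕜] F := fun N => opV (fun k => ∑ n ∈ range (min (k + 1) N), a n • u n) (B N) (hB N)
  have hconv : ∀ d : L1 𝕜, ∃ s, Tendsto (fun N => L N d) atTop (𝓝 s) := fun d => by
    have h1 : ∃ t : G, Tendsto (fun N => ∑ n ∈ range N, (tl d n * a n) • v n) atTop (𝓝 t) := by
      refine ⟨∑' k, d k • ∑ n ∈ range (k + 1), a n • v n, ?_⟩
      have h2 : ∀ N, ∑ n ∈ range N, (tl d n * a n) • v n =
          ∑' k, d k • ∑ n ∈ range (min (k + 1) N), a n • v n := fun N => by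
        rw [← partial_tail]
        exact sum_congr rfl fun n _ => mul_smul _ _ _
      simp only [h2]
      refine tendsto_tsum_of_dominated_convergence (bound := fun k => ‖d k‖ * M)
        ((hasSum_norm_L1 d).summable.mul_right M) (fun k => ?_) (Eventually.of_forall fun N k => ?_)
      · refine tendsto_const_nhds.congr' ?_
        filter_upwards [eventually_ge_atTop (k + 1)] with N hN
        rw [min_eq_left hN]
      · rw [norm_smul]
        exact mul_le_mul_of_nonneg_left (hM _) (norm_nonneg _)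
    obtain ⟨s, hs⟩ := (h _).2 h1
    refine ⟨s, hs.congr fun N => ?_⟩
    rw [show L N d = ∑' k, d k • ∑ n ∈ range (min (k + 1) N), a n • u n from rfl, ← partial_tail]
    exact sum_congr rfl fun n _ => mul_smul _ _ _
  obtain ⟨C, hC⟩ := banach_steinhaus (g := L) fun d => by
    obtain ⟨s, hs⟩ := hconv d
    obtain ⟨C, hC⟩ := hs.norm.bddAbove_range
    exact ⟨C, fun N => hC ⟨N, rfl⟩⟩
  refine ⟨C, fun N => ?_⟩
  have h3 : L N (lp.single 1 N (1 : 𝕜)) = ∑ n ∈ range N, a n • u n := by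
    show (∑' k, (lp.single 1 N (1 : 𝕜) : L1 𝕜) k • ∑ n ∈ range (min (k + 1) N), a n • u n) = _
    rw [tsum_eq_single N]
    · rw [lp.single_apply_self, one_smul, min_eq_right (Nat.le_succ N)]
    · intro k hk
      rw [lp.single_apply_ne _ _ _ hk, zero_smul]
  have h4 : ‖(lp.single 1 N (1 : 𝕜) : L1 𝕜)‖ = 1 := by
    rw [lp.norm_single (by norm_num)]
    exact norm_one
  have h5 := (L N).le_of_opNorm_le (hC N) (lp.single 1 N (1 : 𝕜))
  rw [h3, h4, mul_one] at h5
  exact h5

end ell1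

section system

variable {E : Type*} [NormedAddCommGroup E] [NormedSpace 𝕜 E] [CompleteSpace E]

/-- the closed linear span -/
abbrev cspan (𝕜 : Type*) [RCLike 𝕜] {E : Type*} [NormedAddCommGroup E] [NormedSpace 𝕜 E] (x : ℕ → E) :
    Submodule 𝕜 E := (Submodule.span 𝕜 (Set.range x)).topologicalClosure

/-- the operator `z ↦ ∑_{n<N} f n z • x n` -/
def UU (x : ℕ → E) (f : ℕ → E →L[𝕜] 𝕜) (N : ℕ) : E →L[𝕜] E := ∑ n ∈ range N, (f n).smulRight (x n)

theorem UU_apply (x : ℕ → E) (f : ℕ → E →L[𝕜] 𝕜) (N : ℕ) (z : E) :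
    UU x f N z = ∑ n ∈ range N, f n z • x n := by
  unfold UU
  rw [ContinuousLinearMap.sum_apply]
  rfl

variable {x : ℕ → E} {f : ℕ → E →L[𝕜] 𝕜}

theorem f_sum (hb : ∀ m n, f m (x n) = if m = n then 1 else 0) (a : ℕ → 𝕜) (m N : ℕ) :
    f m (∑ n ∈ range N, a n • x n) = if m < N then a m else 0 := by
  rw [map_sum]
  simp only [map_smul, hb, smul_eq_mul, mul_ite, mul_one, mul_zero]
  rw [sum_ite_eq]
  simp only [mem_range]

/-- the partial sums converge on the closed linear span -/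
theorem tendsto_UU (hb : ∀ m n, f m (x n) = if m = n then 1 else 0) (hx : IsBasicSeq 𝕜 x) {y : E}
    (hy : y ∈ cspan 𝕜 x) : Tendsto (fun N => UU x f N y) atTop (𝓝 y) := by
  obtain ⟨a, ha, -⟩ := hx y hy
  have h1 : ∀ m, f m y = a m := fun m => by
    have h2 := ((f m).continuous.tendsto y).comp ha
    refine tendsto_nhds_unique h2 (tendsto_const_nhds.congr' ?_)
    filter_upwards [eventually_gt_atTop m] with N hN
    show a m = f m (∑ n ∈ range N, a n • x n)
    rw [f_sum hb, if_pos hN]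
  refine ha.congr fun N => ?_
  rw [UU_apply]
  exact sum_congr rfl fun n _ => by rw [h1]

/-- the restricted functionals -/
abbrev phi (x : ℕ → E) (f : ℕ → E →L[𝕜] 𝕜) (n : ℕ) : cspan 𝕜 x →L[𝕜] 𝕜 := (f n).comp (cspan 𝕜 x).subtypeL

theorem bounded_on (hb : ∀ m n, f m (x n) = if m = n then 1 else 0) (hx : IsBasicSeq 𝕜 x) :
    ∃ K, ∀ N, ‖(UU x f N).comp (cspan 𝕜 x).subtypeL‖ ≤ K := by
  have : CompleteSpace (cspan 𝕜 x) := (Submodule.isClosed_topologicalClosure _).completeSpace_coe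
  refine banach_steinhaus fun y => ?_
  obtain ⟨C, hC⟩ := (tendsto_UU hb hx y.2).norm.bddAbove_range
  exact ⟨C, fun N => hC ⟨N, rfl⟩⟩

/-- the operators `U_N` are uniformly bounded if the functionals are equivalent to their restrictions -/
theorem bounded_UU (hb : ∀ m n, f m (x n) = if m = n then 1 else 0) (hx : IsBasicSeq 𝕜 x)
    (he : SeqEquiv 𝕜 f (phi x f)) : ∃ C, ∀ N, ‖UU x f N‖ ≤ C := by
  have : CompleteSpace (cspan 𝕜 x) := (Submodule.isClosed_topologicalClosure _).completeSpace_coe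
  obtain ⟨K, hK⟩ := bounded_on hb hx
  -- the adjoints
  let V : ℕ → (E →L[𝕜] 𝕜) →L[𝕜] (E →L[𝕜] 𝕜) := fun N =>
    (ContinuousLinearMap.compL 𝕜 E E 𝕜).flip (UU x f N)
  have hV : ∀ N ψ, V N ψ = ψ.comp (UU x f N) := fun N ψ => rfl
  have hV' : ∀ N (ψ : E →L[𝕜] 𝕜), ψ.comp (UU x f N) = ∑ n ∈ range N, ψ (x n) • f n := fun N ψ => by
    ext z
    rw [ContinuousLinearMap.comp_apply, UU_apply, map_sum, ContinuousLinearMap.sum_apply]
    refine sum_congr rfl fun n _ => ?_
    rw [map_smul, ContinuousLinearMap.smul_apply, smul_eq_mul, smul_eq_mul, mul_comm]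
  obtain ⟨C, hC⟩ := banach_steinhaus (g := V) fun ψ => by
    have h1 : ∀ N, ‖∑ n ∈ range N, ψ (x n) • phi x f n‖ ≤ ‖ψ‖ * K := fun N => by
      have h2 : ∑ n ∈ range N, ψ (x n) • phi x f n = ψ.comp ((UU x f N).comp (cspan 𝕜 x).subtypeL) := by
        rw [← ContinuousLinearMap.comp_assoc, hV']
        ext z
        rw [ContinuousLinearMap.sum_apply, ContinuousLinearMap.comp_apply, ContinuousLinearMap.sum_apply]
        rfl
      rw [h2]
      exact (ψ.opNorm_comp_le _).trans (mul_le_mul_of_nonneg_left (hK N) (norm_nonneg _))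
    obtain ⟨C, hC⟩ := bounded_of_equiv he (fun n => ψ (x n)) h1
    exact ⟨C, fun N => by rw [hV, hV']; exact hC N⟩
  have hC0 : 0 ≤ C := (norm_nonneg _).trans (hC 0)
  refine ⟨C, fun N => ContinuousLinearMap.opNorm_le_bound _ hC0 fun z => ?_⟩
  refine NormedSpace.norm_le_dual_bound 𝕜 _ (by positivity) fun ψ => ?_
  have h1 : ‖V N ψ z‖ ≤ C * ‖ψ‖ * ‖z‖ :=
    ((V N ψ).le_opNorm z).trans (mul_le_mul_of_nonneg_right ((V N).le_of_opNorm_le (hC N) ψ) (norm_nonneg _))
  calc ‖ψ (UU x f N z)‖ ≤ C * ‖ψ‖ * ‖z‖ := h1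
    _ = C * ‖z‖ * ‖ψ‖ := by ring

/-- the members of a biorthogonal sequence are linearly independent -/
theorem linearIndependent_of (hb : ∀ m n, f m (x n) = if m = n then 1 else 0) : LinearIndependent 𝕜 x := by
  rw [linearIndependent_iff']
  intro s g hg i hi
  have h1 := congrArg (f i) hg
  rw [map_sum, map_zero] at h1
  simp only [map_smul, hb, smul_eq_mul, mul_ite, mul_one, mul_zero] at h1
  rwa [sum_ite_eq, if_pos hi] at h1

end system

end

end Pool.Agent.H270.Bibasic
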